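import Mathlib
import Pool.Agent.W939.PC.Poly

/-!
Vertex cover: the axioms of polynomial calculus which express that a graph has a vertex cover with
at most `t` vertices (sequential counters), and the correctness of this encoding.
-/

set_option linter.unusedSectionVars false
set_option linter.unusedSimpArgs false
set_option linter.unusedVariables false

namespace Pool.Agent.W939.VC

open Finset

/-- The variables: `(Sum.inl v, true)` says that the vertex `v` is in the cover,
`(Sum.inr (i, j), true)` that at least `j` of the first `i` vertices are in the cover; the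
variables with `false` are the negations. -/
abbrev CVar (n t : ℕ) := (Fin n ⊕ (Fin (n + 1) × Fin (t + 2))) × Bool

/-- The variable or negated variable of the vertex `v`. -/
noncomputable def vx (F : Type) [Field F] {n : ℕ} (t : ℕ) (v : Fin n) (b : Bool) :
    MvPolynomial (CVar n t) F :=
  MvPolynomial.X (Sum.inl v, b)

/-- The variable or negated variable of the counter `(i, j)`. -/
noncomputable def ct (F : Type) [Field F] {n t : ℕ} (i : Fin (n + 1)) (j : Fin (t + 2)) (b : Bool) :
    MvPolynomial (CVar n t) F :=
  MvPolynomial.X (Sum.inr (i, j), b)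

/-- The clauses which say that the graph has a vertex cover with at most `t` vertices, as monomials
of polynomial calculus resolution. -/
inductive CoverAx (F : Type) [Field F] {n : ℕ} (G : SimpleGraph (Fin n)) (t : ℕ) :
    MvPolynomial (CVar n t) F → Prop
  | bool (x : CVar n t) : CoverAx F G t (MvPolynomial.X x ^ 2 - MvPolynomial.X x)
  | neg (w : Fin n ⊕ (Fin (n + 1) × Fin (t + 2))) :
      CoverAx F G t (MvPolynomial.X (w, true) + MvPolynomial.X (w, false) - 1)
  | edge (u v : Fin n) : G.Adj u v → CoverAx F G t (vx F t u false * vx F t v false)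
  | zero (i : Fin (n + 1)) : CoverAx F G t (ct F i 0 false)
  | keep (i : Fin n) (j : Fin (t + 2)) :
      CoverAx F G t (ct F i.castSucc j true * ct F i.succ j false)
  | step (i : Fin n) (j : Fin (t + 1)) :
      CoverAx F G t (ct F i.castSucc j.castSucc true * vx F t i true * ct F i.succ j.succ false)
  | last : CoverAx F G t (ct F (Fin.last n) (Fin.last (t + 1)) true)

variable {F : Type} [Field F] {n t : ℕ}

/-- Number of cover vertices among the first `i`. -/
def cf (C : Finset (Fin n)) (i : ℕ) : ℕ := (C.filter (fun l : Fin n => (l : ℕ) < i)).card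

theorem cf_zero (C : Finset (Fin n)) : cf C 0 = 0 := by simp [cf]

theorem cf_succ (C : Finset (Fin n)) (i : Fin n) :
    cf C (i + 1) = cf C i + if i ∈ C then 1 else 0 := by
  unfold cf
  by_cases h : i ∈ C
  · rw [if_pos h]
    have : (C.filter (fun l : Fin n => (l : ℕ) < i + 1)) =
        insert i (C.filter (fun l : Fin n => (l : ℕ) < i)) := by
      ext l
      simp only [mem_filter, mem_insert]
      constructor
      · rintro ⟨h2, h3⟩
        by_cases hl : l = i
        · exact Or.inl hl
        · right
          have : (l : ℕ) ≠ i := fun h' => hl (Fin.ext h')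
          exact ⟨h2, by omega⟩
      · rintro (rfl | ⟨h2, h3⟩)
        · exact ⟨h, by omega⟩
        · exact ⟨h2, by omega⟩
    rw [this, card_insert_of_notMem]
    simp
  · rw [if_neg h, add_zero]
    congr 1
    apply Finset.filter_congr
    intro l hl
    have : (l : ℕ) ≠ i := by
      intro h'
      have : l = i := Fin.ext h'
      rw [this] at hl
      exact h hl
    constructor
    · intro h2; omega
    · intro h2; omega

theorem cf_last (C : Finset (Fin n)) : cf C n = C.card := by
  unfold cf
  congr 1
  rw [Finset.filter_true_of_mem]
  intro l _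
  exact l.2

theorem coverAx_sat (G : SimpleGraph (Fin n)) :
    (∃ x : CVar n t → F, ∀ p, CoverAx F G t p → MvPolynomial.eval x p = 0) ↔
      ∃ C : Finset (Fin n), (∀ u v, G.Adj u v → u ∈ C ∨ v ∈ C) ∧ C.card ≤ t := by
  classical
  constructor
  · rintro ⟨x, hx⟩
    have hbool : ∀ z, x z = 0 ∨ x z = 1 := by
      intro z
      have h := hx _ (CoverAx.bool z)
      simp only [map_sub, map_pow, MvPolynomial.eval_X] at h
      have h2 : x z * (x z - 1) = 0 := by ring_nf; ring_nf at h; exact h
      rcases mul_eq_zero.1 h2 with h3 | h3
      · exact Or.inl h3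
      · exact Or.inr (sub_eq_zero.1 h3)
    have hneg : ∀ w, x (w, true) + x (w, false) = 1 := by
      intro w
      have h := hx _ (CoverAx.neg w)
      simp only [map_sub, map_add, map_one, MvPolynomial.eval_X] at h
      exact sub_eq_zero.1 h
    have hft : ∀ w, x (w, false) = 0 → x (w, true) = 1 := by
      intro w hw
      have := hneg w
      rwa [hw, add_zero] at this
    have htf : ∀ w, x (w, true) ≠ 1 → x (w, false) = 1 := by
      intro w hw
      have h1 := (hbool (w, true)).resolve_right hw
      have := hneg w
      rwa [h1, zero_add] at this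
    refine ⟨univ.filter (fun v => x (Sum.inl v, true) = 1), ?_, ?_⟩
    · intro u v huv
      simp only [mem_filter, mem_univ, true_and]
      by_contra hcon
      push Not at hcon
      have h := hx _ (CoverAx.edge u v huv)
      simp only [vx, map_mul, MvPolynomial.eval_X] at h
      rw [htf _ hcon.1, htf _ hcon.2, mul_one] at h
      exact one_ne_zero h
    · set C := univ.filter (fun v => x (Sum.inl v, true) = 1) with hC
      have key : ∀ i : ℕ, ∀ hi : i ≤ n, ∀ j : ℕ, ∀ hj : j < t + 2, j ≤ cf C i →
          x (Sum.inr (⟨i, by omega⟩, ⟨j, hj⟩), true) = 1 := by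
        intro i
        induction i with
        | zero =>
          intro hi j hj h
          rw [cf_zero] at h
          have hj0 : j = 0 := by omega
          subst hj0
          have h2 := hx _ (CoverAx.zero (⟨0, by omega⟩ : Fin (n + 1)))
          simp only [ct, MvPolynomial.eval_X] at h2
          exact hft _ h2
        | succ i ih =>
          intro hi j hj h
          have hc := cf_succ C ⟨i, by omega⟩
          simp only at hc
          rw [hc] at h
          by_cases h1 : j ≤ cf C i
          · have h2 := ih (by omega) j hj h1
            have h3 := hx _ (CoverAx.keep (⟨i, by omega⟩ : Fin n) (⟨j, hj⟩ : Fin (t + 2)))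
            simp only [ct, map_mul, MvPolynomial.eval_X] at h3
            have e1 : (Fin.castSucc (⟨i, by omega⟩ : Fin n)) = (⟨i, by omega⟩ : Fin (n + 1)) := rfl
            have e2 : (Fin.succ (⟨i, by omega⟩ : Fin n)) = (⟨i + 1, by omega⟩ : Fin (n + 1)) := rfl
            rw [e1, e2, h2, one_mul] at h3
            exact hft _ h3
          · have hv : (⟨i, by omega⟩ : Fin n) ∈ C := by
              by_contra hv
              rw [if_neg hv] at h
              omega
            rw [if_pos hv] at h
            obtain ⟨j', rfl⟩ : ∃ j', j = j' + 1 := ⟨j - 1, by omega⟩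
            have h2 := ih (by omega) j' (by omega) (by omega)
            have h3 := hx _ (CoverAx.step (⟨i, by omega⟩ : Fin n) (⟨j', by omega⟩ : Fin (t + 1)))
            have h4 : x (Sum.inl (⟨i, by omega⟩ : Fin n), true) = 1 := by
              have := hv
              rw [hC, mem_filter] at this
              exact this.2
            simp only [ct, vx, map_mul, MvPolynomial.eval_X] at h3
            have e1 : (Fin.castSucc (⟨i, by omega⟩ : Fin n)) = (⟨i, by omega⟩ : Fin (n + 1)) := rfl
            have e2 : (Fin.succ (⟨i, by omega⟩ : Fin n)) = (⟨i + 1, by omega⟩ : Fin (n + 1)) := rfl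
            have e3 : (Fin.castSucc (⟨j', by omega⟩ : Fin (t + 1))) =
              (⟨j', by omega⟩ : Fin (t + 2)) := rfl
            have e4 : (Fin.succ (⟨j', by omega⟩ : Fin (t + 1))) =
              (⟨j' + 1, hj⟩ : Fin (t + 2)) := rfl
            rw [e1, e2, e3, e4, h2, h4, one_mul, one_mul] at h3
            exact hft _ h3
      by_contra hcon
      have h1 := key n le_rfl (t + 1) (by omega) (by rw [cf_last]; omega)
      have h2 := hx _ CoverAx.last
      simp only [ct, MvPolynomial.eval_X] at h2
      have e1 : (Fin.last n) = (⟨n, by omega⟩ : Fin (n + 1)) := rfl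
      have e2 : (Fin.last (t + 1)) = (⟨t + 1, by omega⟩ : Fin (t + 2)) := rfl
      rw [e1, e2, h1] at h2
      exact one_ne_zero h2
  · rintro ⟨C, hC, hct⟩
    refine ⟨fun z => if (match z.1 with
      | Sum.inl v => decide (v ∈ C)
      | Sum.inr (i, j) => decide ((j : ℕ) ≤ cf C i)) = z.2 then 1 else 0, ?_⟩
    intro p hp
    cases hp with
    | bool z =>
      simp only [map_sub, map_pow, MvPolynomial.eval_X]
      split_ifs <;> simp
    | neg w =>
      simp only [map_sub, map_add, map_one, MvPolynomial.eval_X]
      rcases w with v | ⟨i, j⟩
      · by_cases h : v ∈ C <;> simp [h]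
      · by_cases h : (j : ℕ) ≤ cf C i <;> simp [h]
    | edge u v huv =>
      simp only [vx, map_mul, MvPolynomial.eval_X]
      rcases hC u v huv with h | h <;> simp [h]
    | zero i =>
      simp [ct, MvPolynomial.eval_X]
    | keep i j =>
      simp only [ct, map_mul, MvPolynomial.eval_X, Fin.val_castSucc, Fin.val_succ]
      by_cases h : (j : ℕ) ≤ cf C i
      · have h' : (j : ℕ) ≤ cf C (i + 1) := by rw [cf_succ]; omega
        simp [h']
      · simp [h]
    | step i j =>
      simp only [ct, vx, map_mul, MvPolynomial.eval_X, Fin.val_castSucc, Fin.val_succ]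
      by_cases h : (j : ℕ) ≤ cf C i
      · by_cases hv : i ∈ C
        · have h' : (j : ℕ) + 1 ≤ cf C (i + 1) := by rw [cf_succ, if_pos hv]; omega
          simp [h']
        · simp [hv]
      · simp [h]
    | last =>
      simp only [ct, MvPolynomial.eval_X, Fin.val_last]
      have : ¬ (t + 1 ≤ cf C n) := by rw [cf_last]; omega
      simp [this]

theorem coverAx_degree {G : SimpleGraph (Fin n)} {p : MvPolynomial (CVar n t) F}
    (hp : CoverAx F G t p) : p.totalDegree ≤ 4 := by
  have hv : ∀ v b, (vx F t (n := n) v b).totalDegree ≤ 1 := by
    intro v b; unfold vx; rw [MvPolynomial.totalDegree_X]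
  have hc : ∀ i j b, (ct F (n := n) (t := t) i j b).totalDegree ≤ 1 := by
    intro i j b; unfold ct; rw [MvPolynomial.totalDegree_X]
  cases hp with
  | bool x =>
    refine (MvPolynomial.totalDegree_sub _ _).trans ?_
    rw [max_le_iff]
    constructor
    · refine (MvPolynomial.totalDegree_pow _ _).trans ?_
      rw [MvPolynomial.totalDegree_X]; omega
    · rw [MvPolynomial.totalDegree_X]; omega
  | neg w =>
    refine (MvPolynomial.totalDegree_sub _ _).trans ?_
    rw [max_le_iff]
    constructor
    · refine (MvPolynomial.totalDegree_add _ _).trans ?_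
      rw [MvPolynomial.totalDegree_X, MvPolynomial.totalDegree_X, max_self]; omega
    · simp
  | edge u v huv =>
    refine (MvPolynomial.totalDegree_mul _ _).trans ?_
    have h1 := hv u false
    have h2 := hv v false
    omega
  | zero i => exact (hc _ _ _).trans (by omega)
  | keep i j =>
    refine (MvPolynomial.totalDegree_mul _ _).trans ?_
    have h1 := hc i.castSucc j true
    have h2 := hc i.succ j false
    omega
  | step i j =>
    refine (MvPolynomial.totalDegree_mul _ _).trans ?_
    have h1 := hc i.castSucc j.castSucc true
    have h2 := hc i.succ j.succ false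
    have h3 := hv i true
    have h4 := MvPolynomial.totalDegree_mul (ct F (n := n) (t := t) i.castSucc j.castSucc true)
      (vx F t i true)
    omega
  | last => exact (hc _ _ _).trans (by omega)

end Pool.Agent.W939.VC
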