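import Mathlib
import Pool.Agent.W939.PC.UG
import Pool.Agent.W939.VC.Cover

/-!
Counters of items which are arranged in blocks, and the behaviour of the axioms for vertex covers
under the reduction operator.
-/

set_option linter.unusedSectionVars false
set_option linter.unusedSimpArgs false
set_option linter.unusedVariables false

namespace Pool.Agent.W939.VC

open Finset Pool.Agent.W939.PC

variable {V A : Type} [Fintype V] [DecidableEq V] [Fintype A] [DecidableEq A]
variable {P : Type} [Fintype P] [DecidableEq P]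
variable {m L R t : ℕ}
variable (In : Fin (m * L) → (V → A) → Prop) [∀ l y, Decidable (In l y)]

/-- Number of items in the block of `i` before `i`. -/
def cw (i : ℕ) (y : V → A) : ℕ :=
  (univ.filter (fun l : Fin (m * L) => L * (i / L) ≤ (l : ℕ) ∧ (l : ℕ) < i ∧ In l y)).card

/-- The block contains at most `R` items. -/
def satI (R : ℕ) (b : Fin m) (y : V → A) : Prop :=
  (univ.filter (fun r : Fin L => In (finProdFinEquiv (b, r)) y)).card ≤ R

/-- The vector of a labeling. -/
def ohI (R t : ℕ) (y : V → A) : CVar (m * L) t → Bool := fun x =>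
  (match x.1 with
    | Sum.inl l => decide (In l y)
    | Sum.inr (i, j) => decide ((j : ℕ) ≤ R * ((i : ℕ) / L) + cw In i y)) == x.2

/-- The vertices of the block of the index `i`. -/
def bset (pos : Fin m → P → V) (L i : ℕ) : Finset V :=
  if h : i / L < m then univ.image (pos ⟨i / L, h⟩) else ∅

/-- The vertices on which a coordinate depends. -/
def depI (pos : Fin m → P → V) (L t : ℕ) (x : CVar (m * L) t) : Finset V :=
  match x.1 with
    | Sum.inl l => bset pos L l
    | Sum.inr (i, _) => bset pos L i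

/-- The items of a block depend only on the labels of its vertices. -/
def LocI (pos : Fin m → P → V) : Prop :=
  ∀ (l : Fin (m * L)) (y y' : V → A), (∀ v ∈ bset pos L (l : ℕ), y v = y' v) → (In l y → In l y')

variable {In} {pos : Fin m → P → V}

theorem div_lt_of (l : Fin (m * L)) : (l : ℕ) / L < m := by
  have hL : 0 < L := by
    rcases Nat.eq_zero_or_pos L with h | h
    · exfalso
      have h1 := l.2
      have h2 : m * L = 0 := by rw [h, Nat.mul_zero]
      omega
    · exact h
  rw [Nat.div_lt_iff_lt_mul hL]; exact l.2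

theorem bset_eq {i b : ℕ} (h : i / L = b) (hb : b < m) :
    bset pos L i = univ.image (pos ⟨b, hb⟩) := by
  subst h
  unfold bset
  rw [dif_pos hb]

theorem in_congr (hloc : LocI In pos) {l : Fin (m * L)} {i : ℕ} {y y' : V → A}
    (hl : (l : ℕ) / L = i / L) (h : ∀ v ∈ bset pos L i, y v = y' v) : In l y ↔ In l y' := by
  have e : bset pos L (l : ℕ) = bset pos L i := by
    unfold bset; rw [hl]
  constructor
  · apply hloc; rw [e]; exact h
  · apply hloc; rw [e]; exact fun v hv => (h v hv).symm

theorem window_div {i : ℕ} {l : ℕ} (hL : 0 < L) (h1 : L * (i / L) ≤ l) (h2 : l < i) :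
    l / L = i / L := by
  apply le_antisymm
  · exact Nat.div_le_div_right h2.le
  · rw [Nat.le_div_iff_mul_le hL, mul_comm]; exact h1

theorem cw_congr (hL : 0 < L) (hloc : LocI In pos) {i : ℕ} {y y' : V → A}
    (h : ∀ v ∈ bset pos L i, y v = y' v) : cw In i y = cw In i y' := by
  unfold cw
  congr 1
  apply Finset.filter_congr
  intro l _
  constructor
  · rintro ⟨h1, h2, h3⟩
    exact ⟨h1, h2, (in_congr hloc (window_div hL h1 h2) h).1 h3⟩
  · rintro ⟨h1, h2, h3⟩
    exact ⟨h1, h2, (in_congr hloc (window_div hL h1 h2) h).2 h3⟩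

theorem dep_ohI (hL : 0 < L) (hloc : LocI In pos) : DepOn (ohI In R t) (depI pos L t) := by
  rintro ⟨l | ⟨i, j⟩, c⟩ y y' h
  · have h1 : In l y ↔ In l y' := in_congr hloc rfl h
    simp only [ohI]
    congr 1
    exact decide_eq_decide.2 h1
  · have h1 : cw In i y = cw In i y' := cw_congr hL hloc h
    simp only [ohI, h1]

theorem card_depI (x : CVar (m * L) t) : (depI pos L t x).card ≤ Fintype.card P := by
  have h : ∀ i, (bset pos L i).card ≤ Fintype.card P := by
    intro i
    unfold bset
    split_ifs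
    · refine Finset.card_image_le.trans ?_
      rw [Finset.card_univ]
    · simp
  obtain ⟨x | ⟨i, j⟩, c⟩ := x
  · exact h _
  · exact h _

theorem cw_lt {i : ℕ} (hL : 0 < L) (y : V → A) : cw In i y < L := by
  refine lt_of_le_of_lt (le_trans (Finset.card_le_card ?_) (card_window (M := m * L) (i := i) hL))
    (Nat.mod_lt _ hL)
  intro l hl
  rw [mem_filter] at hl ⊢
  exact ⟨hl.1, hl.2.1, hl.2.2.1⟩

theorem local_I (hL : 0 < L) (hloc : LocI In pos) : Local pos (satI In R) := by
  intro b y y' h hs
  unfold satI at hs ⊢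
  have : (univ.filter (fun r : Fin L => In (finProdFinEquiv (b, r)) y')) =
      (univ.filter (fun r : Fin L => In (finProdFinEquiv (b, r)) y)) := by
    apply Finset.filter_congr
    intro r _
    have hd : ((finProdFinEquiv (b, r) : Fin (m * L)) : ℕ) / L = (b : ℕ) := by
      rw [finProdFinEquiv_apply_val, Nat.add_mul_div_left _ _ hL, Nat.div_eq_of_lt r.2, zero_add]
    have hb : bset pos L ((finProdFinEquiv (b, r) : Fin (m * L)) : ℕ) = univ.image (pos b) :=
      bset_eq hd b.2
    apply in_congr hloc rfl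
    intro v hv
    rw [hb] at hv
    obtain ⟨p, _, rfl⟩ := mem_image.1 hv
    exact (h p).symm
  rw [this]; exact hs

theorem cw_succ (i : Fin (m * L)) (y : V → A) (hi : ((i : ℕ) + 1) / L = (i : ℕ) / L) :
    cw In (i + 1) y = cw In i y + if In i y then 1 else 0 := by
  unfold cw
  rw [hi]
  have hki : L * ((i : ℕ) / L) ≤ i := Nat.mul_div_le _ _
  by_cases h : In i y
  · rw [if_pos h]
    have : (univ.filter (fun l : Fin (m * L) => L * ((i : ℕ) / L) ≤ (l : ℕ) ∧
        (l : ℕ) < i + 1 ∧ In l y)) =
        insert i (univ.filter (fun l : Fin (m * L) => L * ((i : ℕ) / L) ≤ (l : ℕ) ∧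
        (l : ℕ) < i ∧ In l y)) := by
      ext l
      simp only [mem_filter, mem_univ, true_and, mem_insert]
      constructor
      · rintro ⟨h1, h2, h3⟩
        by_cases hl : l = i
        · exact Or.inl hl
        · right
          have : (l : ℕ) ≠ i := fun h' => hl (Fin.ext h')
          exact ⟨h1, by omega, h3⟩
      · rintro (rfl | ⟨h1, h2, h3⟩)
        · exact ⟨hki, by omega, h⟩
        · exact ⟨h1, by omega, h3⟩
    rw [this, card_insert_of_notMem]
    simp
  · rw [if_neg h, add_zero]
    congr 1
    apply Finset.filter_congr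
    intro l _
    constructor
    · rintro ⟨h1, h2, h3⟩
      have : (l : ℕ) ≠ i := by
        intro h'
        have : l = i := Fin.ext h'
        rw [this] at h3
        exact h h3
      exact ⟨h1, by omega, h3⟩
    · rintro ⟨h1, h2, h3⟩
      exact ⟨h1, by omega, h3⟩

theorem cw_end (i : ℕ) (y : V → A) (hi : L * ((i + 1) / L) = i + 1) : cw In (i + 1) y = 0 := by
  unfold cw
  rw [Finset.card_eq_zero, Finset.filter_eq_empty_iff]
  rintro l _ ⟨h1, h2, _⟩
  omega

theorem cw_sat (hL : 0 < L) (i : Fin (m * L)) (b : Fin m) (hb : (i : ℕ) / L = b) (y : V → A)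
    (hs : satI In R b y) : cw In i y + (if In i y then 1 else 0) ≤ R := by
  unfold satI at hs
  refine le_trans ?_ hs
  have hki : L * ((i : ℕ) / L) ≤ i := Nat.mul_div_le _ _
  have h1 : cw In i y + (if In i y then 1 else 0) =
      (univ.filter (fun l : Fin (m * L) => L * ((i : ℕ) / L) ≤ (l : ℕ) ∧
        (l : ℕ) < i + 1 ∧ In l y)).card := by
    unfold cw
    by_cases h : In i y
    · rw [if_pos h]
      have : (univ.filter (fun l : Fin (m * L) => L * ((i : ℕ) / L) ≤ (l : ℕ) ∧
          (l : ℕ) < i + 1 ∧ In l y)) =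
          insert i (univ.filter (fun l : Fin (m * L) => L * ((i : ℕ) / L) ≤ (l : ℕ) ∧
          (l : ℕ) < i ∧ In l y)) := by
        ext l
        simp only [mem_filter, mem_univ, true_and, mem_insert]
        constructor
        · rintro ⟨h1, h2, h3⟩
          by_cases hl : l = i
          · exact Or.inl hl
          · right
            have : (l : ℕ) ≠ i := fun h' => hl (Fin.ext h')
            exact ⟨h1, by omega, h3⟩
        · rintro (rfl | ⟨h1, h2, h3⟩)
          · exact ⟨hki, by omega, h⟩
          · exact ⟨h1, by omega, h3⟩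
      rw [this, card_insert_of_notMem]
      simp
    · rw [if_neg h, add_zero]
      congr 1
      apply Finset.filter_congr
      intro l _
      constructor
      · rintro ⟨h1, h2, h3⟩
        exact ⟨h1, by omega, h3⟩
      · rintro ⟨h1, h2, h3⟩
        have : (l : ℕ) ≠ i := by
          intro h'
          have : l = i := Fin.ext h'
          rw [this] at h3
          exact h h3
        exact ⟨h1, by omega, h3⟩
  rw [h1]
  have h5 : ∀ x : Fin (m * L), L * ((i : ℕ) / L) ≤ (x : ℕ) → (x : ℕ) < i + 1 →
      (x : ℕ) / L = b := by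
    intro x hx1 hx2
    rw [← hb]
    apply le_antisymm
    · exact Nat.div_le_div_right (by omega)
    · rw [Nat.le_div_iff_mul_le hL, mul_comm]; exact hx1
  apply Finset.card_le_card_of_injOn (fun l : Fin (m * L) => (⟨(l : ℕ) % L, Nat.mod_lt _ hL⟩ : Fin L))
  · intro l hl
    simp only [coe_filter, mem_univ, true_and, Set.mem_ofPred_eq] at hl ⊢
    obtain ⟨h2, h3, h4⟩ := hl
    have h6 : (finProdFinEquiv : Fin m × Fin L ≃ Fin (m * L)) (b, ⟨(l : ℕ) % L, Nat.mod_lt _ hL⟩) =
        l := by
      apply Fin.ext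
      simp only [finProdFinEquiv_apply_val]
      rw [← h5 l h2 h3]
      exact Nat.mod_add_div _ _
    rw [h6]
    exact h4
  · intro l hl l' hl' h
    simp only [coe_filter, mem_univ, true_and, Set.mem_ofPred_eq] at hl hl'
    have h6 := h5 l hl.1 hl.2.1
    have h7 := h5 l' hl'.1 hl'.2.1
    have h8 : (l : ℕ) % L = (l' : ℕ) % L := by
      have := congrArg Fin.val h
      exact this
    apply Fin.ext
    rw [← Nat.mod_add_div (l : ℕ) L, ← Nat.mod_add_div (l' : ℕ) L, h6, h7, h8]

variable {F : Type} [Field F]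

theorem eval_vx (y : V → A) (v : Fin (m * L)) (c : Bool) :
    MvPolynomial.eval (bv F (ohI In R t y)) (vx F t v c) =
      if decide (In v y) = c then 1 else 0 := by
  simp [vx, bv, ohI]

theorem eval_ct (y : V → A) (i : Fin (m * L + 1)) (j : Fin (t + 2)) (c : Bool) :
    MvPolynomial.eval (bv F (ohI In R t y)) (ct F i j c) =
      if decide ((j : ℕ) ≤ R * ((i : ℕ) / L) + cw In i y) = c then 1 else 0 := by
  simp [ct, bv, ohI]

theorem Rd_coverAx (o : A) {s : ℕ} (hL : 0 < L) (hloc : LocI In pos)
    (hflex : Flexible pos (satI In R)) (hE : Expd pos s)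
    (hP : 3 ≤ Fintype.card P) (hs : 4 * Fintype.card P ≤ s) (ht : R * m ≤ t)
    {G : SimpleGraph (Fin (m * L))} (hG : ∀ u v, G.Adj u v → ∀ y, In u y ∨ In v y)
    {p : MvPolynomial (CVar (m * L) t) F} (hp : CoverAx F G t p) :
    Rd F o pos (satI In R) s (pull F (ohI In R t) (toCube p)) = 0 := by
  have hlocal : Local pos (satI In R) := local_I hL hloc
  have hzero : ∀ p : MvPolynomial (CVar (m * L) t) F,
      (∀ y, MvPolynomial.eval (bv F (ohI In R t y)) p = 0) →
      Rd F o pos (satI In R) s (pull F (ohI In R t) (toCube p)) = 0 := by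
    intro p hp
    have : pull F (ohI In R t) (toCube p) = 0 := by
      funext y
      exact hp y
    rw [this, map_zero]
  -- counters around `i` depend only on the block of `i`
  have hcong : ∀ (i : Fin (m * L)) (y y' : V → A),
      (∀ p, y (pos ⟨(i : ℕ) / L, div_lt_of i⟩ p) = y' (pos ⟨(i : ℕ) / L, div_lt_of i⟩ p)) →
      cw In i y = cw In i y' ∧ cw In (i + 1) y = cw In (i + 1) y' ∧ (In i y ↔ In i y') := by
    intro i y y' h
    have h1 : ∀ v ∈ bset pos L (i : ℕ), y v = y' v := by
      intro v hv
      rw [bset_eq rfl (div_lt_of i)] at hv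
      obtain ⟨p, _, rfl⟩ := mem_image.1 hv
      exact h p
    refine ⟨cw_congr hL hloc h1, ?_, in_congr hloc rfl h1⟩
    rcases div_succ_cases (i := (i : ℕ)) hL with h2 | ⟨h2, h3⟩
    · apply cw_congr hL hloc
      intro v hv
      apply h1
      unfold bset at hv ⊢
      rw [h2] at hv
      exact hv
    · rw [cw_end _ y h3, cw_end _ y' h3]
  cases hp with
  | bool x =>
    apply hzero
    intro y
    simp only [map_sub, map_pow, MvPolynomial.eval_X, bv]
    split_ifs <;> simp
  | neg w =>
    apply hzero
    intro y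
    simp only [map_sub, map_add, map_one, MvPolynomial.eval_X, bv, ohI]
    rcases w with v | ⟨i, j⟩
    · by_cases h : In v y <;> simp [h]
    · by_cases h : (j : ℕ) ≤ R * ((i : ℕ) / L) + cw In i y <;> simp [h]
  | edge u v huv =>
    apply hzero
    intro y
    rw [map_mul, eval_vx, eval_vx]
    rcases hG u v huv y with h | h <;> simp [h]
  | zero i =>
    apply hzero
    intro y
    rw [eval_ct]
    simp
  | keep i j =>
    apply Rd_blk hlocal hflex hE hs hP ⟨(i : ℕ) / L, div_lt_of i⟩
    · intro y y' h
      obtain ⟨h1, h2, h3⟩ := hcong i y y' h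
      simp only [pull_apply, toCube, map_mul, eval_ct, Fin.val_castSucc, Fin.val_succ, h1, h2]
    · intro y hy
      have hsat := cw_sat hL i ⟨(i : ℕ) / L, div_lt_of i⟩ rfl y hy
      simp only [pull_apply, toCube, map_mul, eval_ct, Fin.val_castSucc, Fin.val_succ]
      by_cases h : (j : ℕ) ≤ R * ((i : ℕ) / L) + cw In i y
      · have h' : (j : ℕ) ≤ R * (((i : ℕ) + 1) / L) + cw In (i + 1) y := by
          rcases div_succ_cases (i := (i : ℕ)) hL with h1 | ⟨h1, h2⟩
          · rw [cw_succ i y h1, h1]; omega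
          · rw [cw_end i y h2, h1, Nat.mul_add, Nat.mul_one]; omega
        simp [h']
      · simp [h]
  | step i j =>
    apply Rd_blk hlocal hflex hE hs hP ⟨(i : ℕ) / L, div_lt_of i⟩
    · intro y y' h
      obtain ⟨h1, h2, h3⟩ := hcong i y y' h
      simp only [pull_apply, toCube, map_mul, eval_ct, eval_vx, Fin.val_castSucc, Fin.val_succ,
        h1, h2, h3]
    · intro y hy
      have hsat := cw_sat hL i ⟨(i : ℕ) / L, div_lt_of i⟩ rfl y hy
      simp only [pull_apply, toCube, map_mul, eval_ct, eval_vx, Fin.val_castSucc, Fin.val_succ]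
      by_cases h : (j : ℕ) ≤ R * ((i : ℕ) / L) + cw In i y
      · by_cases hv : In i y
        · have h' : (j : ℕ) + 1 ≤ R * (((i : ℕ) + 1) / L) + cw In (i + 1) y := by
            rw [if_pos hv] at hsat
            rcases div_succ_cases (i := (i : ℕ)) hL with h1 | ⟨h1, h2⟩
            · rw [cw_succ i y h1, h1, if_pos hv]; omega
            · rw [cw_end i y h2, h1, Nat.mul_add, Nat.mul_one]; omega
          simp [h']
        · simp [hv]
      · simp [h]
  | last =>
    apply hzero
    intro y
    rw [eval_ct]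
    have h1 : cw In (m * L) y = 0 := by
      unfold cw
      rw [Finset.card_eq_zero, Finset.filter_eq_empty_iff]
      rintro l _ ⟨h1, h2, _⟩
      rw [Nat.mul_div_cancel _ hL] at h1
      have h3 : L * m = m * L := Nat.mul_comm _ _
      omega
    have h2 : ¬ (t + 1 ≤ R * (m * L / L) + cw In (m * L) y) := by
      rw [h1, Nat.mul_div_cancel _ hL]
      omega
    simp [Fin.val_last, h2]

/-- The coordinates which are not constant. -/
def actI (m L R t : ℕ) : Finset (CVar (m * L) t) :=
  univ.filter (fun x => ∀ i j, x.1 = Sum.inr (i, j) →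
    R * ((i : ℕ) / L) < (j : ℕ) ∧ (j : ℕ) < R * ((i : ℕ) / L) + L)

/-- The values of the constant coordinates. -/
def rhoI (m L R t : ℕ) (x : CVar (m * L) t) : Bool :=
  match x.1 with
    | Sum.inl _ => false
    | Sum.inr (i, j) => decide ((j : ℕ) ≤ R * ((i : ℕ) / L)) == x.2

theorem rho_ohI (hL : 0 < L) :
    ∀ x ∉ actI m L R t, ∀ y, ohI In R t y x = rhoI m L R t x := by
  rintro ⟨w | ⟨i, j⟩, c⟩ hx y
  · exfalso
    apply hx
    simp [actI]
  · simp only [actI, mem_filter, mem_univ, true_and] at hx
    have hx' : ¬ (R * ((i : ℕ) / L) < (j : ℕ) ∧ (j : ℕ) < R * ((i : ℕ) / L) + L) := by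
      intro h
      apply hx
      intro i' j' h'
      simp only [Sum.inr.injEq, Prod.mk.injEq] at h'
      obtain ⟨rfl, rfl⟩ := h'
      exact h
    have hcv := cw_lt (In := In) (i := (i : ℕ)) hL y
    simp only [ohI, rhoI]
    congr 1
    rw [decide_eq_decide]
    omega

theorem card_actI (hL : 0 < L) :
    (actI m L R t).card ≤ 2 * (m * L + (m * L + 1) * L) := by
  have h1 : (actI m L R t).card ≤
      Fintype.card ((Fin (m * L) ⊕ (Fin (m * L + 1) × Fin L)) × Bool) := by
    rw [← Finset.card_univ]
    apply Finset.card_le_card_of_injOn (fun x : CVar (m * L) t =>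
      ((match x.1 with
        | Sum.inl w => Sum.inl w
        | Sum.inr (i, j) => Sum.inr (i, ⟨((j : ℕ) - R * ((i : ℕ) / L)) % L, Nat.mod_lt _ hL⟩) :
        Fin (m * L) ⊕ (Fin (m * L + 1) × Fin L)), x.2))
    · intro x _
      simp
    · rintro ⟨w | ⟨i, j⟩, c⟩ hx ⟨w' | ⟨i', j'⟩, c'⟩ hx' h
      · simp only [Prod.mk.injEq, Sum.inl.injEq] at h
        obtain ⟨rfl, rfl⟩ := h
        rfl
      · simp at h
      · simp at h
      · simp only [Prod.mk.injEq, Sum.inr.injEq, Fin.mk.injEq] at h
        obtain ⟨⟨rfl, h2⟩, rfl⟩ := h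
        simp only [actI, coe_filter, mem_univ, true_and, Set.mem_ofPred_eq] at hx hx'
        have h3 := hx i j rfl
        have h4 := hx' i j' rfl
        have e1 : ((j : ℕ) - R * ((i : ℕ) / L)) % L = (j : ℕ) - R * ((i : ℕ) / L) :=
          Nat.mod_eq_of_lt (by omega)
        have e2 : ((j' : ℕ) - R * ((i : ℕ) / L)) % L = (j' : ℕ) - R * ((i : ℕ) / L) :=
          Nat.mod_eq_of_lt (by omega)
        rw [e1, e2] at h2
        have : j = j' := Fin.ext (by omega)
        rw [this]
  refine h1.trans (le_of_eq ?_)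
  simp only [Fintype.card_prod, Fintype.card_sum, Fintype.card_fin, Fintype.card_bool]
  ring

end Pool.Agent.W939.VC
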