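import Mathlib
import Pool.Agent.W939.PC.Expand
import Pool.Agent.W939.PC.Value
import Pool.Agent.W939.VC.Items

/-!
The conflict graph of partial assignments.
-/

set_option linter.unusedSectionVars false
set_option linter.unusedSimpArgs false
set_option linter.unusedVariables false

namespace Pool.Agent.W939.VC

open Finset Pool.Agent.W939.PC

/-- The labeling agrees with the `l`-th partial assignment. -/
def Agree {K N n : ℕ} (hv : Fin n → Fin K → Fin N) (hb : Fin n → Fin K → Bool) (l : Fin n)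
    (y : Fin K × Fin N → Bool) : Prop :=
  ∀ j, y (j, hv l j) = hb l j

instance {K N n : ℕ} (hv : Fin n → Fin K → Fin N) (hb : Fin n → Fin K → Bool) (l : Fin n)
    (y : Fin K × Fin N → Bool) : Decidable (Agree hv hb l y) := by
  unfold Agree; infer_instance

/-- Two partial assignments are adjacent if they contradict each other. -/
def confl {K N n : ℕ} (hv : Fin n → Fin K → Fin N) (hb : Fin n → Fin K → Bool) :
    SimpleGraph (Fin n) where
  Adj l l' := ∃ j, hv l j = hv l' j ∧ hb l j ≠ hb l' j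
  symm := by
    constructor
    rintro l l' ⟨j, h1, h2⟩
    exact ⟨j, h1.symm, h2.symm⟩
  loopless := by
    constructor
    rintro l ⟨j, -, h⟩
    exact h rfl

/-- The complement of a vertex cover comes from a labeling. -/
theorem agree_of_cover {K N n : ℕ} (hv : Fin n → Fin K → Fin N) (hb : Fin n → Fin K → Bool)
    (C : Finset (Fin n)) (hC : ∀ u v, (confl hv hb).Adj u v → u ∈ C ∨ v ∈ C) :
    ∃ y : Fin K × Fin N → Bool, ∀ l ∉ C, Agree hv hb l y := by
  classical
  refine ⟨fun p => if h : ∃ l, l ∉ C ∧ hv l p.1 = p.2 then hb h.choose p.1 else false, ?_⟩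
  intro l hl j
  have hex : ∃ l', l' ∉ C ∧ hv l' j = hv l j := ⟨l, hl, rfl⟩
  simp only
  rw [dif_pos hex]
  by_contra hne
  have h1 := hex.choose_spec
  rcases hC _ _ (⟨j, h1.2, hne⟩ : (confl hv hb).Adj hex.choose l) with h | h
  · exact h1.1 h
  · exact hl h

section inst

variable {m k K N : ℕ}

/-- Index of the partial assignment: block, constraint and sign. -/
def ix (b : Fin m) (i : Fin k) (β : Fin 2) : Fin (m * (k * 2)) :=
  finProdFinEquiv (b, finProdFinEquiv (i, β))

/-- Block, constraint and sign of an index. -/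
def dx (l : Fin (m * (k * 2))) : Fin m × Fin k × Fin 2 :=
  ((finProdFinEquiv.symm l).1, (finProdFinEquiv.symm ((finProdFinEquiv.symm l).2)).1,
    (finProdFinEquiv.symm ((finProdFinEquiv.symm l).2)).2)

theorem dx_ix (b : Fin m) (i : Fin k) (β : Fin 2) : dx (ix b i β) = (b, i, β) := by
  simp [dx, ix]

theorem ix_dx (l : Fin (m * (k * 2))) : ix (dx l).1 (dx l).2.1 (dx l).2.2 = l := by
  unfold dx ix
  simp only [Prod.mk.eta, Equiv.apply_symm_apply]

theorem dx_fst (l : Fin (m * (k * 2))) : (((dx l).1 : Fin m) : ℕ) = (l : ℕ) / (k * 2) := by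
  simp [dx]

/-- Truth value of a sign. -/
def tv (β : Fin 2) : Bool := decide (β = 1)

/-- The vertices of the partial assignments. -/
def hvI (ω : Fin m → Fin k × Fin K → Fin N) (l : Fin (m * (k * 2))) (j : Fin K) : Fin N :=
  ω (dx l).1 ((dx l).2.1, j)

/-- The values of the partial assignments. -/
def hbI (σ : Fin m × Fin k → Fin K → Bool) (l : Fin (m * (k * 2))) (j : Fin K) : Bool :=
  xor (σ ((dx l).1, (dx l).2.1) j) (tv (dx l).2.2)

/-- The vertices of a block. -/
def posI (ω : Fin m → Fin k × Fin K → Fin N) (b : Fin m) (p : Fin k × Fin K) : Fin K × Fin N :=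
  (p.2, ω b p)

/-- The vertex of the conflict graph is in the cover given by a labeling. -/
def InC (ω : Fin m → Fin k × Fin K → Fin N) (σ : Fin m × Fin k → Fin K → Bool)
    (l : Fin (m * (k * 2))) (y : Fin K × Fin N → Bool) : Prop :=
  ¬ Agree (hvI ω) (hbI σ) l y

instance (ω : Fin m → Fin k × Fin K → Fin N) (σ : Fin m × Fin k → Fin K → Bool)
    (l : Fin (m * (k * 2))) (y : Fin K × Fin N → Bool) : Decidable (InC ω σ l y) := by
  unfold InC; infer_instance

variable (ω : Fin m → Fin k × Fin K → Fin N) (σ : Fin m × Fin k → Fin K → Bool)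

theorem locI : LocI (InC ω σ) (posI ω) := by
  intro l y y' h hin hag
  apply hin
  intro j
  rw [← hag j]
  apply h
  have hm : (l : ℕ) / (k * 2) < m := div_lt_of l
  rw [bset_eq rfl hm, mem_image]
  refine ⟨((dx l).2.1, j), mem_univ _, ?_⟩
  have : (⟨(l : ℕ) / (k * 2), hm⟩ : Fin m) = (dx l).1 := Fin.ext (dx_fst l).symm
  simp only [posI, hvI, this]

theorem edgeI (u v : Fin (m * (k * 2))) (h : (confl (hvI ω) (hbI σ)).Adj u v)
    (y : Fin K × Fin N → Bool) : InC ω σ u y ∨ InC ω σ v y := by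
  by_contra hcon
  unfold InC at hcon
  push Not at hcon
  obtain ⟨j, h1, h2⟩ := h
  apply h2
  rw [← hcon.1 j, ← hcon.2 j, h1]

theorem matchI (hK : 0 < K) (b : Fin m) (i : Fin k) :
    (confl (hvI ω) (hbI σ)).Adj (ix b i 0) (ix b i 1) := by
  refine ⟨⟨0, hK⟩, ?_, ?_⟩
  · simp only [hvI, dx_ix]
  · simp only [hbI, dx_ix, tv]
    cases σ (b, i) ⟨0, hK⟩ <;> simp

theorem flexI : Flexible (posI ω) (satI (InC ω σ) (k + 2)) := by
  classical
  intro b Q hQ huniq
  let w : Fin K × Fin N → Bool := fun v =>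
    if h : ∃ i, (i, v.1) ∈ Q ∧ ω b (i, v.1) = v.2 then σ (b, h.choose) v.1 else false
  refine ⟨w, ?_⟩
  intro y
  unfold satI
  -- constraints with all positions in `Q`
  have hcard : (Qᶜ).card ≤ 2 := by
    rw [Finset.card_compl]; omega
  have hag : ∀ i : Fin k, (∀ j : Fin K, (i, j) ∈ Q) →
      Agree (hvI ω) (hbI σ) (ix b i 0) (ov (Q.image (posI ω b)) w y) := by
    intro i hi j
    simp only [hvI, hbI, dx_ix]
    have h1 : (j, ω b (i, j)) ∈ Q.image (posI ω b) :=
      mem_image.2 ⟨(i, j), hi j, rfl⟩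
    have hex : ∃ i', (i', j) ∈ Q ∧ ω b (i', j) = ω b (i, j) := ⟨i, hi j, rfl⟩
    have h2 : ov (Q.image (posI ω b)) w y (j, ω b (i, j)) = σ (b, hex.choose) j := by
      unfold ov
      rw [if_pos h1]
      simp only [w]
      rw [dif_pos hex]
    have h3 : hex.choose = i := by
      have := huniq (i, j) (hi j) (hex.choose, j) (by
        simp only [posI]
        rw [hex.choose_spec.2])
      exact (Prod.mk.inj this).1
    rw [h2, h3]
    simp [tv]
  -- a constraint which agrees gives an element outside of the cover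
  have hsub : (univ.filter (fun r : Fin (k * 2) => InC ω σ (finProdFinEquiv (b, r))
      (ov (Q.image (posI ω b)) w y))) ⊆
      univ \ (univ.filter (fun i : Fin k => ∀ j : Fin K, (i, j) ∈ Q)).image
        (fun i => (finProdFinEquiv (i, (0 : Fin 2)) : Fin (k * 2))) := by
    intro r hr
    rw [mem_filter] at hr
    rw [mem_sdiff]
    refine ⟨mem_univ _, ?_⟩
    intro h
    obtain ⟨i, hi, rfl⟩ := mem_image.1 h
    exact hr.2 (hag i (mem_filter.1 hi).2)
  refine (Finset.card_le_card hsub).trans ?_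
  rw [Finset.card_sdiff_of_subset (subset_univ _), Finset.card_univ, Fintype.card_fin,
    Finset.card_image_of_injective]
  · have h1 : (univ.filter (fun i : Fin k => ∀ j : Fin K, (i, j) ∈ Q)).card +
        (univ.filter (fun i : Fin k => ¬ ∀ j : Fin K, (i, j) ∈ Q)).card = k := by
      rw [Finset.card_filter_add_card_filter_not, Finset.card_univ, Fintype.card_fin]
    have h2 : (univ.filter (fun i : Fin k => ¬ ∀ j : Fin K, (i, j) ∈ Q)).card ≤ 2 := by
      refine le_trans ?_ hcard
      have : (univ.filter (fun i : Fin k => ¬ ∀ j : Fin K, (i, j) ∈ Q)) ⊆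
          Qᶜ.image Prod.fst := by
        intro i hi
        rw [mem_filter] at hi
        obtain ⟨-, hi⟩ := hi
        push Not at hi
        obtain ⟨j, hj⟩ := hi
        exact mem_image.2 ⟨(i, j), mem_compl.2 hj, rfl⟩
      exact (Finset.card_le_card this).trans Finset.card_image_le
    omega
  · intro i i' h
    have := finProdFinEquiv.injective h
    exact (Prod.mk.inj this).1

theorem expdI {s : ℕ} (h : Expd ω s) : Expd (posI ω) s := by
  intro T hT
  refine (h T hT).trans ?_
  have h1 : vert ω T ⊆ (vert (posI ω) T).image Prod.snd := by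
    intro v hv
    obtain ⟨b, hb, p, hp⟩ := (mem_vert ω).1 hv
    rw [mem_image]
    exact ⟨posI ω b p, (mem_vert _).2 ⟨b, hb, p, rfl⟩, hp⟩
  have h2 := (Finset.card_le_card h1).trans Finset.card_image_le
  omega

end inst

section value

theorem sum_signs {K : ℕ} (hK : 0 < K) (a : Fin K → Bool) (t : ℝ) :
    ∑ s : Fin K → Bool, (if ∃ β : Fin 2, ∀ j, a j = xor (s j) (tv β) then t else 1) =
      (2 : ℝ) ^ K * (1 + (t - 1) / (2 : ℝ) ^ (K - 1)) := by
  classical
  have hset : (univ.filter (fun s : Fin K → Bool => ∃ β : Fin 2, ∀ j, a j = xor (s j) (tv β))) =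
      {a, fun j => !a j} := by
    ext s
    simp only [mem_filter, mem_univ, true_and, mem_insert, mem_singleton]
    constructor
    · rintro ⟨β, h⟩
      rcases Fin.exists_fin_two.1 ⟨β, rfl⟩ with h0 | h0
      · subst h0
        left
        funext j
        have := h j
        simp only [tv] at this
        rw [this]; simp
      · subst h0
        right
        funext j
        have := h j
        simp only [tv] at this
        rw [this]; simp
    · rintro (rfl | rfl)
      · exact ⟨0, fun j => by simp [tv]⟩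
      · exact ⟨1, fun j => by simp [tv]⟩
  have hcard : (univ.filter (fun s : Fin K → Bool =>
      ∃ β : Fin 2, ∀ j, a j = xor (s j) (tv β))).card = 2 := by
    rw [hset, Finset.card_pair]
    intro h
    have := congrFun h ⟨0, hK⟩
    simp at this
  have h1 : ∑ s : Fin K → Bool, (if ∃ β : Fin 2, ∀ j, a j = xor (s j) (tv β) then t else 1) =
      ∑ s : Fin K → Bool, (1 + (if ∃ β : Fin 2, ∀ j, a j = xor (s j) (tv β) then t - 1 else 0)) := by
    apply Finset.sum_congr rfl
    intro s _
    split_ifs <;> ring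
  rw [h1, Finset.sum_add_distrib, Finset.sum_const, ← Finset.sum_filter, Finset.sum_const,
    hcard, Finset.card_univ, nsmul_eq_mul, nsmul_eq_mul, mul_one]
  have h2 : (Fintype.card (Fin K → Bool) : ℝ) = (2 : ℝ) ^ K := by
    rw [Fintype.card_fun]; simp
  rw [h2]
  obtain ⟨K', rfl⟩ : ∃ K', K = K' + 1 := ⟨K - 1, by omega⟩
  have : (2 : ℝ) ^ (K' + 1) = 2 * 2 ^ K' := by ring
  rw [this, Nat.add_sub_cancel]
  have h3 : (0 : ℝ) < 2 ^ K' := by positivity
  field_simp
  push_cast
  ring

theorem exists_signs {K N : ℕ} {ι : Type} [Fintype ι] [DecidableEq ι] (hK : 0 < K)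
    (ends : ι → Fin K → Fin N) {t δ ρ : ℝ} (ht : 1 < t)
    (hρ : ρ = (1 + (t - 1) / (2 : ℝ) ^ (K - 1)) / t ^ δ)
    (hlt : (2 : ℝ) ^ (K * N) * ρ ^ (Fintype.card ι) < 1) :
    ∃ σ : ι → Fin K → Bool, ∀ y : Fin K × Fin N → Bool,
      ((univ.filter (fun i => ∃ β : Fin 2, ∀ j, y (j, ends i j) = xor (σ i j) (tv β))).card : ℝ) ≤
        δ * Fintype.card ι := by
  classical
  by_contra hcon
  push Not at hcon
  set M := Fintype.card ι with hM
  set Q : ℝ := (2 : ℝ) ^ K with hQ
  have hQ0 : 0 < Q := by rw [hQ]; positivity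
  have ht0 : 0 < t := by linarith
  have htd : 0 < t ^ δ := Real.rpow_pos_of_pos ht0 _
  let c : (ι → Fin K → Bool) → (Fin K × Fin N → Bool) → ℕ := fun σ y =>
    (univ.filter (fun i => ∃ β : Fin 2, ∀ j, y (j, ends i j) = xor (σ i j) (tv β))).card
  have h1 : ∀ σ : ι → Fin K → Bool, (1 : ℝ) ≤ ∑ y : Fin K × Fin N → Bool,
      t ^ (c σ y) / (t ^ δ) ^ M := by
    intro σ
    obtain ⟨y, hy⟩ := hcon σ
    have h2 : (1 : ℝ) ≤ t ^ (c σ y) / (t ^ δ) ^ M := by
      rw [le_div_iff₀ (pow_pos htd M), one_mul]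
      rw [← Real.rpow_natCast (t ^ δ) M, ← Real.rpow_mul ht0.le, ← Real.rpow_natCast t]
      exact Real.rpow_le_rpow_of_exponent_le ht.le hy.le
    refine h2.trans ?_
    exact Finset.single_le_sum (f := fun y => t ^ (c σ y) / (t ^ δ) ^ M)
      (fun y _ => by positivity) (mem_univ y)
  have h2 : (Fintype.card (ι → Fin K → Bool) : ℝ) ≤
      ∑ σ : ι → Fin K → Bool, ∑ y : Fin K × Fin N → Bool,
        t ^ (c σ y) / (t ^ δ) ^ M := by
    have := Finset.sum_le_sum (fun (σ : ι → Fin K → Bool) (_ : σ ∈ univ) => h1 σ)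
    rw [Finset.sum_const, Finset.card_univ, nsmul_eq_mul, mul_one] at this
    exact this
  rw [Finset.sum_comm] at h2
  have h3 : ∀ y : Fin K × Fin N → Bool, ∑ σ : ι → Fin K → Bool,
      t ^ (c σ y) / (t ^ δ) ^ M = Q ^ M * ρ ^ M := by
    intro y
    have h4 : ∀ σ : ι → Fin K → Bool, t ^ (c σ y) =
        ∏ i, (if ∃ β : Fin 2, ∀ j, y (j, ends i j) = xor (σ i j) (tv β) then t else 1) := by
      intro σ
      rw [← Finset.prod_filter, Finset.prod_const]
    rw [← Finset.sum_div]
    have h5 : ∑ σ : ι → Fin K → Bool, t ^ (c σ y) =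
        (Q * (1 + (t - 1) / (2 : ℝ) ^ (K - 1))) ^ M := by
      rw [Finset.sum_congr rfl (fun σ _ => h4 σ)]
      have h6 := Finset.prod_univ_sum (fun _ : ι => (univ : Finset (Fin K → Bool)))
        (fun i s => (if ∃ β : Fin 2, ∀ j, y (j, ends i j) = xor (s j) (tv β) then t else (1 : ℝ)))
      rw [Fintype.piFinset_univ] at h6
      rw [← h6]
      rw [Finset.prod_congr rfl (fun i _ => sum_signs hK (fun j => y (j, ends i j)) t)]
      rw [Finset.prod_const, Finset.card_univ]
    rw [h5, hρ, mul_pow, div_pow]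
    ring
  rw [Finset.sum_congr rfl (fun y _ => h3 y), Finset.sum_const, Finset.card_univ,
    nsmul_eq_mul] at h2
  have h7 : (Fintype.card (ι → Fin K → Bool) : ℝ) = Q ^ M := by
    rw [Fintype.card_fun, Fintype.card_fun, Fintype.card_fin, Fintype.card_bool]; push_cast; rfl
  have h8 : (Fintype.card (Fin K × Fin N → Bool) : ℝ) = (2 : ℝ) ^ (K * N) := by
    rw [Fintype.card_fun, Fintype.card_prod, Fintype.card_fin, Fintype.card_fin, Fintype.card_bool]
    push_cast
    rfl
  rw [h7, h8] at h2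
  have h9 : 0 < Q ^ M := pow_pos hQ0 M
  have h10 : (2 : ℝ) ^ (K * N) * (Q ^ M * ρ ^ M) = Q ^ M * ((2 : ℝ) ^ (K * N) * ρ ^ M) := by ring
  rw [h10] at h2
  nlinarith

end value

end Pool.Agent.W939.VC
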