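import Mathlib
import Pool.Agent.W939.VC.Graph

/-!
Assembly of the lower bound for vertex cover.
-/

set_option linter.unusedSectionVars false
set_option linter.unusedSimpArgs false
set_option linter.unusedVariables false

namespace Pool.Agent.W939.VC

open Finset Pool.Agent.W939.PC

theorem matching_fin {m k K N : ℕ} (hK : 0 < K) (ω : Fin m → Fin k × Fin K → Fin N)
    (σ : Fin m × Fin k → Fin K → Bool) (i : ℕ) (h : 2 * i + 1 < m * (k * 2)) :
    (confl (hvI ω) (hbI σ)).Adj ⟨2 * i, by omega⟩ ⟨2 * i + 1, h⟩ := by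
  have hk : 0 < k := by
    rcases Nat.eq_zero_or_pos k with h0 | h0
    · subst h0; simp at h
    · exact h0
  have him : i < m * k := by
    have : m * (k * 2) = 2 * (m * k) := by ring
    omega
  have hb : i / k < m := by rw [Nat.div_lt_iff_lt_mul hk]; exact him
  have h1 := matchI ω σ hK ⟨i / k, hb⟩ ⟨i % k, Nat.mod_lt _ hk⟩
  have hmod : i % k + k * (i / k) = i := Nat.mod_add_div i k
  have e0 : ix (⟨i / k, hb⟩ : Fin m) (⟨i % k, Nat.mod_lt _ hk⟩ : Fin k) 0 =
      (⟨2 * i, by omega⟩ : Fin (m * (k * 2))) := by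
    apply Fin.ext
    simp only [ix, finProdFinEquiv_apply_val, Fin.val_zero]
    have : k * 2 * (i / k) = 2 * (k * (i / k)) := by ring
    omega
  have e1 : ix (⟨i / k, hb⟩ : Fin m) (⟨i % k, Nat.mod_lt _ hk⟩ : Fin k) 1 =
      (⟨2 * i + 1, h⟩ : Fin (m * (k * 2))) := by
    apply Fin.ext
    simp only [ix, finProdFinEquiv_apply_val, Fin.val_one]
    have : k * 2 * (i / k) = 2 * (k * (i / k)) := by ring
    omega
  rw [e0, e1] at h1
  exact h1

/-- A vertex cover is large if every labeling satisfies few constraints. -/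
theorem cover_large {m k K N : ℕ} (hK : 0 < K) (ω : Fin m → Fin k × Fin K → Fin N)
    (σ : Fin m × Fin k → Fin K → Bool) {δ : ℝ}
    (hσ : ∀ y : Fin K × Fin N → Bool,
      ((univ.filter (fun c : Fin m × Fin k => ∃ β : Fin 2, ∀ j,
        y (j, ω c.1 (c.2, j)) = xor (σ c j) (tv β))).card : ℝ) ≤ δ * (m * k : ℕ))
    (C : Finset (Fin (m * (k * 2))))
    (hC : ∀ u v, (confl (hvI ω) (hbI σ)).Adj u v → u ∈ C ∨ v ∈ C) :
    ((m * (k * 2) : ℕ) : ℝ) - δ * (m * k : ℕ) ≤ C.card := by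
  classical
  obtain ⟨y, hy⟩ := agree_of_cover (hvI ω) (hbI σ) C hC
  have h1 : (Cᶜ).card ≤ (univ.filter (fun c : Fin m × Fin k => ∃ β : Fin 2, ∀ j,
      y (j, ω c.1 (c.2, j)) = xor (σ c j) (tv β))).card := by
    apply Finset.card_le_card_of_injOn (fun l => ((dx l).1, (dx l).2.1))
    · intro l hl
      rw [coe_filter]
      refine ⟨mem_univ _, (dx l).2.2, ?_⟩
      have hl' : l ∉ C := by simpa using hl
      exact hy l hl'
    · intro l hl l' hl' h
      have hl1 : l ∉ C := by simpa using hl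
      have hl2 : l' ∉ C := by simpa using hl'
      simp only [Prod.mk.injEq] at h
      have a1 := hy l hl1 ⟨0, hK⟩
      have a2 := hy l' hl2 ⟨0, hK⟩
      simp only [hvI, hbI, h.1, h.2] at a1 a2
      rw [a1] at a2
      have h3 : tv (dx l).2.2 = tv (dx l').2.2 := by
        revert a2
        cases σ ((dx l').1, (dx l').2.1) ⟨0, hK⟩ <;> cases tv (dx l).2.2 <;>
          cases tv (dx l').2.2 <;> simp
      have h4 : (dx l).2.2 = (dx l').2.2 := by
        unfold tv at h3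
        have h5 : ((dx l).2.2 = 1) ↔ ((dx l').2.2 = 1) := by
          simpa using h3
        rcases Fin.exists_fin_two.1 ⟨(dx l).2.2, rfl⟩ with g | g <;>
          rcases Fin.exists_fin_two.1 ⟨(dx l').2.2, rfl⟩ with g' | g'
        · rw [g, g']
        · exact absurd (h5.2 g') (by rw [g]; decide)
        · exact absurd (h5.1 g) (by rw [g']; decide)
        · rw [g, g']
      rw [← ix_dx l, ← ix_dx l', h.1, h.2, h4]
  have h2 := hσ y
  have h3 : (C.card : ℝ) + ((Cᶜ).card : ℝ) = ((m * (k * 2) : ℕ) : ℝ) := by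
    have := Finset.card_add_card_compl C
    rw [Fintype.card_fin] at this
    exact_mod_cast this
  have h4 : ((Cᶜ).card : ℝ) ≤ δ * (m * k : ℕ) := le_trans (by exact_mod_cast h1) h2
  linarith

/-- The combinatorial core with explicit parameters. -/
theorem core_cover {K k N s e t n : ℕ} {δ τ ρ γ : ℝ} (hK : 2 ≤ K) (hτ : 1 < τ)
    (hρ : ρ = (1 + (τ - 1) / (2 : ℝ) ^ (K - 1)) / τ ^ δ)
    (hlt : (2 : ℝ) ^ (K * N) * ρ ^ (K * N * k) < 1)
    (hk2 : 2 ≤ k) (ht : (k + 2) * (K * N) ≤ t) (hN : 0 < N)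
    (hγ0 : 0 < γ) (hγ1 : γ ≤ 1)
    (hγ : γ * (4 * (K * ((k * K : ℕ) : ℝ) * (((k * K : ℕ) : ℝ) + 1) *
      Real.exp 1 ^ (k * K + 1))) ≤ 1)
    (hs : ((k * K * s : ℕ) : ℝ) ≤ γ ^ 4 * N)
    (he1 : 2 ≤ e) (hes : 4 * (4 * e * (k * K) + k * K) ≤ s) (hen : 2 * e ≤ n)
    (hn : 2 * (K * N * (k * 2) + (K * N * (k * 2) + 1) * (k * 2)) ≤ n) :
    ∃ G : SimpleGraph (Fin (K * N * (k * 2))),
      (∀ (i : ℕ) (h : 2 * i + 1 < K * N * (k * 2)), G.Adj ⟨2 * i, by omega⟩ ⟨2 * i + 1, h⟩) ∧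
      (∀ C : Finset (Fin (K * N * (k * 2))), (∀ u v, G.Adj u v → u ∈ C ∨ v ∈ C) →
        ((K * N * (k * 2) : ℕ) : ℝ) - δ * ((K * N * k : ℕ) : ℝ) ≤ C.card) ∧
      ∀ (F : Type) [Field F] (S : Finset (CVar (K * N * (k * 2)) t →₀ ℕ)),
        Derives {p | CoverAx F G t p} (S : Set (CVar (K * N * (k * 2)) t →₀ ℕ)) 1 →
          (∃ m ∈ S, 4 * e < m.degree) ∧ Real.exp (4 * (e : ℝ) ^ 2 / (n : ℝ)) ≤ S.card := by
  classical
  have hK0 : 0 < K := by omega
  have hP : Fintype.card (Fin k × Fin K) = k * K := by simp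
  obtain ⟨ω, hω⟩ := exists_expanding (P := Fin k × Fin K) (N := N) (m := K * N) (s := s) (μ := K)
    (γ := γ) hN le_rfl hγ0 hγ1 (by rw [hP]; exact hγ) (by rw [hP]; exact hs)
  obtain ⟨σ, hσ⟩ := exists_signs (ι := Fin (K * N) × Fin k) hK0
    (fun c j => ω c.1 (c.2, j)) (t := τ) (δ := δ) (ρ := ρ) hτ hρ (by
      rw [Fintype.card_prod, Fintype.card_fin, Fintype.card_fin]; exact hlt)
  refine ⟨confl (hvI ω) (hbI σ), fun i h => matching_fin hK0 ω σ i h, ?_, ?_⟩
  · intro C hC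
    refine cover_large hK0 ω σ ?_ C hC
    intro y
    have := hσ y
    rw [Fintype.card_prod, Fintype.card_fin, Fintype.card_fin] at this
    exact this
  · intro F _ S hS
    have hL : 0 < k * 2 := by omega
    have hP3 : 3 ≤ Fintype.card (Fin k × Fin K) := by
      rw [hP]
      have : 2 * 2 ≤ k * K := Nat.mul_le_mul hk2 hK
      omega
    have hE := expdI ω hω
    have hes' : 4 * Fintype.card (Fin k × Fin K) ≤ s := by
      rw [hP]
      refine le_trans ?_ hes
      have : 0 ≤ 4 * e * (k * K) := Nat.zero_le _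
      omega
    exact lower (K := F) false (dep_ohI (In := InC ω σ) (R := k + 2) (t := t) hL (locI ω σ))
      (fun x => card_depI x) (local_I hL (locI ω σ)) (flexI ω σ) hE
      (actI (K * N) (k * 2) (k + 2) t) (rhoI (K * N) (k * 2) (k + 2) t) (rho_ohI hL)
      (by rw [hP]; exact hes) ((card_actI hL).trans hn) hen (by omega)
      (Ax := {p | CoverAx F (confl (hvI ω) (hbI σ)) t p})
      (fun p hp => (coverAx_degree hp).trans (by omega))
      (fun p hp => Rd_coverAx false hL (locI ω σ) (flexI ω σ) hE hP3 hes' ht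
        (fun u v huv y => edgeI ω σ u v huv y) hp) S hS

end Pool.Agent.W939.VC
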