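import Mathlib
import Pool.Agent.W939.VC.Main

/-!
Choice of the parameters.
-/

set_option linter.unusedSectionVars false
set_option linter.unusedSimpArgs false
set_option linter.unusedVariables false

namespace Pool.Agent.W939.VC

open Finset

theorem params (K k r : ℕ) (hr : r = k * K) (hK1 : 1 ≤ K) (hk1 : 1 ≤ k) :
    ∃ γ a : ℝ, 0 < γ ∧ γ ≤ 1 ∧
      γ * (4 * (K * (r : ℝ) * ((r : ℝ) + 1) * Real.exp 1 ^ (r + 1))) ≤ 1 ∧
      (r : ℝ) * a = γ ^ 4 ∧ 0 < a ∧ a ≤ 1 ∧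
      (40960 * k * (r : ℝ) ^ 4) * (a⁻¹) ^ 2 ≤ Real.exp (80 * r) := by
  have hr1 : 1 ≤ r := by rw [hr]; exact Nat.mul_pos hk1 hK1
  have hr1' : (1 : ℝ) ≤ r := by exact_mod_cast hr1
  have hkr : (k : ℝ) ≤ r := by
    rw [hr]; exact_mod_cast Nat.le_mul_of_pos_right k hK1
  have hKr : (K : ℝ) ≤ r := by
    rw [hr]; exact_mod_cast Nat.le_mul_of_pos_left K hk1
  have hK1' : (1 : ℝ) ≤ K := by exact_mod_cast hK1
  have hk1' : (1 : ℝ) ≤ k := by exact_mod_cast hk1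
  set E : ℝ := Real.exp r with hE
  have hEr : (r : ℝ) + 1 ≤ E := Real.add_one_le_exp _
  have hE2 : (2 : ℝ) ≤ E := by linarith
  have hE1 : (1 : ℝ) ≤ E := by linarith
  have hE0 : (0 : ℝ) < E := by linarith
  have hEpow : ∀ j : ℕ, E ^ j = Real.exp (j * r) := by
    intro j; rw [hE, ← Real.exp_nat_mul]
  have f1 : (4 : ℝ) ≤ E ^ 2 := by nlinarith
  have f5 : Real.exp 1 ^ (r + 1) ≤ E ^ 2 := by
    rw [hEpow, ← Real.exp_nat_mul]
    apply Real.exp_le_exp.2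
    push_cast
    linarith
  have hexp1 : (1 : ℝ) ≤ Real.exp 1 ^ (r + 1) := by
    apply one_le_pow₀
    have := Real.add_one_le_exp (1 : ℝ); linarith
  set W : ℝ := 4 * (K * (r : ℝ) * ((r : ℝ) + 1) * Real.exp 1 ^ (r + 1)) with hW
  have hW1 : 1 ≤ W := by
    have h1 : (1 : ℝ) ≤ K * (r : ℝ) := one_le_mul_of_one_le_of_one_le hK1' hr1'
    have h2 : (1 : ℝ) ≤ K * (r : ℝ) * ((r : ℝ) + 1) :=
      one_le_mul_of_one_le_of_one_le h1 (by linarith)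
    have h3 := one_le_mul_of_one_le_of_one_le h2 hexp1
    rw [hW]; linarith
  have hWE : W ≤ E ^ 7 := by
    have h1 : (K : ℝ) * (r : ℝ) ≤ E * E :=
      mul_le_mul (by linarith) (by linarith) (by positivity) (by positivity)
    have h2 : (K : ℝ) * (r : ℝ) * ((r : ℝ) + 1) ≤ E * E * E :=
      mul_le_mul h1 hEr (by positivity) (by positivity)
    have h3 : (K : ℝ) * (r : ℝ) * ((r : ℝ) + 1) * Real.exp 1 ^ (r + 1) ≤ E * E * E * E ^ 2 :=
      mul_le_mul h2 f5 (by positivity) (by positivity)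
    have h4 : W ≤ E ^ 2 * (E * E * E * E ^ 2) := by
      rw [hW]
      exact mul_le_mul f1 h3 (by positivity) (by positivity)
    refine h4.trans (le_of_eq ?_)
    ring
  have hW0 : 0 < W := by linarith
  set γ : ℝ := W⁻¹ with hγdef
  have hγ0 : 0 < γ := inv_pos.2 hW0
  have hγ1 : γ ≤ 1 := inv_le_one_of_one_le₀ hW1
  have hr0 : (0 : ℝ) < r := by linarith
  set a : ℝ := γ ^ 4 / r with ha
  have ha0 : 0 < a := by positivity
  have ha1 : a ≤ 1 := by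
    rw [ha, div_le_one hr0]
    exact (pow_le_one₀ hγ0.le hγ1).trans hr1'
  have hainv : a⁻¹ ≤ E ^ 29 := by
    have h1 : a⁻¹ = (r : ℝ) * W ^ 4 := by
      rw [ha, hγdef]
      field_simp
    rw [h1]
    have h2 : (r : ℝ) * W ^ 4 ≤ E * (E ^ 7) ^ 4 :=
      mul_le_mul (by linarith) (pow_le_pow_left₀ hW0.le hWE 4) (by positivity) (by positivity)
    refine h2.trans (le_of_eq ?_)
    ring
  have hD : 40960 * k * (r : ℝ) ^ 4 ≤ E ^ 21 := by
    have g1 : (40960 : ℝ) ≤ E ^ 16 := by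
      have h1 : (2 : ℝ) ^ 16 ≤ E ^ 16 := pow_le_pow_left₀ (by norm_num) hE2 16
      have h2 : (2 : ℝ) ^ 16 = 65536 := by norm_num
      linarith
    have g2 : (r : ℝ) ^ 4 ≤ E ^ 4 := pow_le_pow_left₀ hr0.le (by linarith) 4
    have g3 : (40960 : ℝ) * k ≤ E ^ 16 * E :=
      mul_le_mul g1 (by linarith) (by positivity) (by positivity)
    have g4 : (40960 : ℝ) * k * (r : ℝ) ^ 4 ≤ E ^ 16 * E * E ^ 4 :=
      mul_le_mul g3 g2 (by positivity) (by positivity)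
    refine g4.trans (le_of_eq ?_)
    ring
  refine ⟨γ, a, hγ0, hγ1, ?_, ?_, ha0, ha1, ?_⟩
  · rw [hγdef]; exact (inv_mul_cancel₀ hW0.ne').le
  · rw [ha]; field_simp
  · have h1 : (40960 * k * (r : ℝ) ^ 4) * (a⁻¹) ^ 2 ≤ E ^ 21 * (E ^ 29) ^ 2 :=
      mul_le_mul hD (pow_le_pow_left₀ (by positivity) hainv 2) (by positivity) (by positivity)
    have h2 : E ^ 21 * (E ^ 29) ^ 2 = E ^ 79 := by ring
    have h3 : E ^ 79 ≤ E ^ 80 := pow_le_pow_right₀ hE1 (by norm_num)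
    have h4 : E ^ 80 = Real.exp (80 * r) := by
      rw [hEpow]; norm_num
    rw [← h4]
    rw [h2] at h1
    exact h1.trans h3

/-- The arity `K` and the block length `k`. -/
theorem arity {ε : ℝ} (hε : 0 < ε) (hε1 : ε ≤ 1) :
    ∃ K k : ℕ, 2 ≤ K ∧ 2 ≤ k ∧ 2 ≤ ε * k ∧ 8 / ε ≤ (2 : ℝ) ^ (K - 1) ∧
      (k * K : ℝ) ≤ 27 / ε * Real.log (2 / ε) ∧ (k : ℝ) ≤ 3 / ε := by
  set Λ : ℝ := Real.log (2 / ε) with hΛ
  have h2ε : 2 ≤ 2 / ε := by rw [le_div_iff₀ hε]; linarith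
  have hl2 : (0.6931471803 : ℝ) < Real.log 2 := Real.log_two_gt_d9
  have hl2' : Real.log 2 ≤ Λ := Real.log_le_log (by norm_num) h2ε
  have hΛ0 : 0.69 ≤ Λ := by linarith
  obtain ⟨K, hKdef⟩ : ∃ K : ℕ, K = ⌈6 * Λ⌉₊ + 1 := ⟨_, rfl⟩
  obtain ⟨k, hkdef⟩ : ∃ k : ℕ, k = ⌈2 / ε⌉₊ := ⟨_, rfl⟩
  have hk2 : 2 / ε ≤ k := by rw [hkdef]; exact Nat.le_ceil _
  have hk3 : (k : ℝ) ≤ 3 / ε := by
    have h1 : (k : ℝ) < 2 / ε + 1 := by
      rw [hkdef]; exact Nat.ceil_lt_add_one (by positivity)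
    have h2 : 1 ≤ 1 / ε := by rw [le_div_iff₀ hε]; linarith
    have h3 : 3 / ε = 2 / ε + 1 / ε := by ring
    linarith
  have hK9 : (K : ℝ) ≤ 9 * Λ := by
    have h1 : (⌈6 * Λ⌉₊ : ℝ) < 6 * Λ + 1 := Nat.ceil_lt_add_one (by linarith)
    rw [hKdef]
    push_cast
    linarith
  refine ⟨K, k, ?_, ?_, ?_, ?_, ?_, hk3⟩
  · have h1 : 1 ≤ ⌈6 * Λ⌉₊ := Nat.one_le_ceil_iff.2 (by linarith)
    omega
  · have h1 : (2 : ℝ) ≤ k := h2ε.trans hk2
    exact_mod_cast h1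
  · rw [div_le_iff₀ hε] at hk2; linarith
  · have h1 : K - 1 = ⌈6 * Λ⌉₊ := by omega
    rw [h1]
    have h2 : (6 * Λ : ℝ) ≤ ⌈6 * Λ⌉₊ := Nat.le_ceil _
    have h3 : (2 : ℝ) ^ (6 * Λ) ≤ (2 : ℝ) ^ (⌈6 * Λ⌉₊ : ℝ) :=
      Real.rpow_le_rpow_of_exponent_le (by norm_num) h2
    rw [Real.rpow_natCast] at h3
    refine le_trans ?_ h3
    rw [Real.rpow_def_of_pos (by norm_num : (0 : ℝ) < 2)]
    have h4 : 4 * Λ ≤ Real.log 2 * (6 * Λ) := by nlinarith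
    refine le_trans ?_ (Real.exp_le_exp.2 h4)
    have h5 : Real.exp (4 * Λ) = (2 / ε) ^ 4 := by
      have : (4 : ℝ) * Λ = ((4 : ℕ) : ℝ) * Λ := by norm_num
      rw [this, Real.exp_nat_mul, hΛ, Real.exp_log (by positivity)]
    rw [h5]
    have h6 : (2 : ℝ) ^ 3 ≤ (2 / ε) ^ 3 := pow_le_pow_left₀ (by norm_num) h2ε 3
    have h7 : (2 / ε) ^ 4 = (2 / ε) ^ 3 * (2 / ε) := by ring
    have h8 : 8 / ε = 4 * (2 / ε) := by ring
    rw [h7, h8]
    apply mul_le_mul_of_nonneg_right _ (by positivity)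
    linarith
  · have h1 : (k * K : ℝ) ≤ 3 / ε * (9 * Λ) :=
      mul_le_mul hk3 hK9 (Nat.cast_nonneg _) (by positivity)
    refine h1.trans (le_of_eq ?_)
    ring

/-- The union bound over all labelings. -/
theorem value_bound {ε : ℝ} {K k N : ℕ} (hε : 0 < ε) (hε1 : ε ≤ 1) (hK : 2 ≤ K)
    (hkε : 2 ≤ ε * k) (h8 : 8 / ε ≤ (2 : ℝ) ^ (K - 1)) (hN : 0 < N) :
    (2 : ℝ) ^ (K * N) * ((1 + (Real.exp 2 - 1) / (2 : ℝ) ^ (K - 1)) / (Real.exp 2) ^ ε) ^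
      (K * N * k) < 1 := by
  have hP : (0 : ℝ) < (2 : ℝ) ^ (K - 1) := by positivity
  have he2 : Real.exp 2 ≤ 8 := by
    have h1 : Real.exp 1 < 2.7182818286 := Real.exp_one_lt_d9
    have h2 : Real.exp 2 = Real.exp 1 * Real.exp 1 := by
      rw [← Real.exp_add]; norm_num
    rw [h2]
    have h3 : 0 < Real.exp 1 := Real.exp_pos _
    nlinarith
  have he2' : 1 < Real.exp 2 := by
    have := Real.add_one_le_exp (2 : ℝ); linarith
  have h1 : (Real.exp 2 - 1) / (2 : ℝ) ^ (K - 1) ≤ ε := by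
    rw [div_le_iff₀ hP]
    rw [div_le_iff₀ hε] at h8
    nlinarith
  have h2 : (1 + (Real.exp 2 - 1) / (2 : ℝ) ^ (K - 1)) / (Real.exp 2) ^ ε ≤ Real.exp (-ε) := by
    have h3 : (Real.exp 2) ^ ε = Real.exp (2 * ε) := by rw [← Real.exp_mul]
    rw [h3, div_le_iff₀ (Real.exp_pos _), ← Real.exp_add]
    have h4 : -ε + 2 * ε = ε := by ring
    rw [h4]
    have := Real.add_one_le_exp ε
    linarith
  have h3 : 0 ≤ (1 + (Real.exp 2 - 1) / (2 : ℝ) ^ (K - 1)) / (Real.exp 2) ^ ε := by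
    have : 0 ≤ (Real.exp 2 - 1) / (2 : ℝ) ^ (K - 1) := div_nonneg (by linarith) hP.le
    have := Real.rpow_pos_of_pos (Real.exp_pos 2) ε
    positivity
  have h4 := pow_le_pow_left₀ h3 h2 (K * N * k)
  have h5 : (2 : ℝ) ^ (K * N) = Real.exp (Real.log 2 * (K * N : ℕ)) := by
    rw [mul_comm (Real.log 2), Real.exp_nat_mul, Real.exp_log (by norm_num)]
  have hKN : (0 : ℝ) < ((K * N : ℕ) : ℝ) := by
    have : 0 < K * N := by positivity
    exact_mod_cast this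
  calc (2 : ℝ) ^ (K * N) * ((1 + (Real.exp 2 - 1) / (2 : ℝ) ^ (K - 1)) / (Real.exp 2) ^ ε) ^
        (K * N * k) ≤ Real.exp (Real.log 2 * (K * N : ℕ)) * Real.exp (-ε) ^ (K * N * k) := by
        rw [h5]
        exact mul_le_mul_of_nonneg_left h4 (Real.exp_pos _).le
    _ = Real.exp (Real.log 2 * (K * N : ℕ) + ((K * N * k : ℕ) : ℝ) * (-ε)) := by
        rw [← Real.exp_nat_mul, ← Real.exp_add]
    _ < 1 := by
        rw [Real.exp_lt_one_iff]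
        have hl : Real.log 2 < 1 := by
          have := Real.log_two_lt_d9; linarith
        have h6 : ((K * N * k : ℕ) : ℝ) * (-ε) = -(((K * N : ℕ) : ℝ) * (ε * k)) := by
          push_cast; ring
        rw [h6]
        have h7 : ((K * N : ℕ) : ℝ) * 2 ≤ ((K * N : ℕ) : ℝ) * (ε * k) :=
          mul_le_mul_of_nonneg_left hkε hKN.le
        nlinarith

end Pool.Agent.W939.VC
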